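import Pool.Agent.Y453.UF.Stm

/-! # The form of a class is even and symmetric -/

set_option autoImplicit false

namespace Pool.Agent.Y641.UFT

open Pool.Agent.Results.MP_9b3cbe_gt.E8Arises
open Pool.Agent.Y453.UF

section

variable {n : ℕ}

theorem c3 (u v w : Fin n → ℤ) :
    ExteriorAlgebra.ι ℤ u * ExteriorAlgebra.ι ℤ v * ExteriorAlgebra.ι ℤ w =
      ExteriorAlgebra.ι ℤ w * (ExteriorAlgebra.ι ℤ u * ExteriorAlgebra.ι ℤ v) := by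
  have h1 := eq_neg_of_add_eq_zero_left (ExteriorAlgebra.ι_add_mul_swap (R := ℤ) v w)
  have h2 := eq_neg_of_add_eq_zero_left (ExteriorAlgebra.ι_add_mul_swap (R := ℤ) u w)
  rw [mul_assoc, h1, mul_neg, ← mul_assoc, h2, neg_mul, neg_neg, mul_assoc]

theorem c4 (u v w z : Fin n → ℤ) :
    ExteriorAlgebra.ι ℤ u * ExteriorAlgebra.ι ℤ v *
      (ExteriorAlgebra.ι ℤ w * ExteriorAlgebra.ι ℤ z) =
      ExteriorAlgebra.ι ℤ w * ExteriorAlgebra.ι ℤ z *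
        (ExteriorAlgebra.ι ℤ u * ExteriorAlgebra.ι ℤ v) := by
  rw [← mul_assoc, c3, mul_assoc, c3, mul_assoc]

/-- the induction for the second exterior power -/
theorem ind2 {P : ExteriorAlgebra ℤ (Fin n → ℤ) → Prop}
    (h : ∀ u v : Fin n → ℤ, P (ExteriorAlgebra.ι ℤ u * ExteriorAlgebra.ι ℤ v))
    (ha : ∀ x y, P x → P y → P (x + y)) {x : ExteriorAlgebra ℤ (Fin n → ℤ)}
    (hx : x ∈ ⋀[ℤ]^2 (Fin n → ℤ)) : P x := by
  have h1 : x ∈ LinearMap.range (ExteriorAlgebra.ι ℤ : (Fin n → ℤ) →ₗ[ℤ] _) *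
      LinearMap.range (ExteriorAlgebra.ι ℤ : (Fin n → ℤ) →ₗ[ℤ] _) := by
    rw [← sq]
    exact hx
  refine Submodule.mul_induction_on h1 ?_ ha
  rintro _ ⟨u, rfl⟩ _ ⟨v, rfl⟩
  exact h u v

theorem comm2 {x y : ExteriorAlgebra ℤ (Fin n → ℤ)} (hx : x ∈ ⋀[ℤ]^2 (Fin n → ℤ))
    (hy : y ∈ ⋀[ℤ]^2 (Fin n → ℤ)) : x * y = y * x := by
  refine ind2 (P := fun x => x * y = y * x) (fun u v => ?_) (fun a b h1 h2 => ?_) hx
  · refine ind2 (P := fun y => ExteriorAlgebra.ι ℤ u * ExteriorAlgebra.ι ℤ v * y =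
      y * (ExteriorAlgebra.ι ℤ u * ExteriorAlgebra.ι ℤ v)) (fun w z => c4 u v w z)
      (fun a b h1 h2 => ?_) hy
    rw [mul_add, add_mul, h1, h2]
  · rw [mul_add, add_mul, h1, h2]

theorem mul22 {x y : ExteriorAlgebra ℤ (Fin n → ℤ)} (hx : x ∈ ⋀[ℤ]^2 (Fin n → ℤ))
    (hy : y ∈ ⋀[ℤ]^2 (Fin n → ℤ)) : x * y ∈ ⋀[ℤ]^4 (Fin n → ℤ) := by
  have h := Submodule.mul_mem_mul hx hy
  rw [← pow_add] at h
  exact h

theorem dec2 (u v : Fin n → ℤ) :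
    ExteriorAlgebra.ι ℤ u * ExteriorAlgebra.ι ℤ v ∈ ⋀[ℤ]^2 (Fin n → ℤ) := by
  have h : ExteriorAlgebra.ι ℤ u * ExteriorAlgebra.ι ℤ v ∈
      LinearMap.range (ExteriorAlgebra.ι ℤ : (Fin n → ℤ) →ₗ[ℤ] _) ^ 2 := by
    rw [sq]
    exact Submodule.mul_mem_mul ⟨u, rfl⟩ ⟨v, rfl⟩
  exact h

/-- the square of a class of degree two is twice a class -/
theorem sq2 {x : ExteriorAlgebra ℤ (Fin n → ℤ)} (hx : x ∈ ⋀[ℤ]^2 (Fin n → ℤ)) :
    ∃ y ∈ ⋀[ℤ]^4 (Fin n → ℤ), x * x = y + y := by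
  refine (ind2 (P := fun x => x ∈ ⋀[ℤ]^2 (Fin n → ℤ) ∧ ∃ y ∈ ⋀[ℤ]^4 (Fin n → ℤ),
    x * x = y + y) (fun u v => ⟨dec2 u v, 0, zero_mem _, ?_⟩) (fun a b h1 h2 => ?_) hx).2
  · rw [← mul_assoc, c3, ← mul_assoc, ExteriorAlgebra.ι_sq_zero, zero_mul, zero_mul, add_zero]
  · obtain ⟨ha, y, hy, e1⟩ := h1
    obtain ⟨hb, z, hz, e2⟩ := h2
    refine ⟨add_mem ha hb, y + z + a * b, add_mem (add_mem hy hz) (mul22 ha hb), ?_⟩
    have e3 : (a + b) * (a + b) = a * a + b * b + (a * b + b * a) := by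
      rw [mul_add, add_mul, add_mul]
      abel
    rw [e3, comm2 hb ha, e1, e2]
    abel

theorem mul4 (h4 : 4 ≤ n) {y w : ExteriorAlgebra ℤ (Fin n → ℤ)}
    (hy : y ∈ ⋀[ℤ]^4 (Fin n → ℤ)) (hw : w ∈ ⋀[ℤ]^(n - 4) (Fin n → ℤ)) :
    y * w ∈ ⋀[ℤ]^n (Fin n → ℤ) := by
  have h := Submodule.mul_mem_mul hy hw
  rw [← pow_add, show 4 + (n - 4) = n by omega] at h
  exact h

theorem sq2' (x : CohRing n) (hx : x ∈ Coh n 2) :
    ∃ y : CohRing n, y ∈ Coh n 4 ∧ x * x = y + y := sq2 hx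

theorem mul4' (h4 : 4 ≤ n) {y w : CohRing n} (hy : y ∈ Coh n 4) (hw : w ∈ Coh n (n - 4)) :
    y * w ∈ Coh n n := mul4 h4 hy hw

end

theorem even (htor : S_TOR) : S_EVEN := by
  intro n T ω φ h4 hT hω hφ
  have inj : ∀ a b : ℤ, a • T = b • T → a = b := by
    intro a b h
    have h1 : (a - b) • T = 0 := by rw [sub_smul, h, sub_self]
    have h2 := htor n T hT _ h1
    omega
  refine ⟨fun x y => ?_, fun x => ?_, fun x y z => ?_⟩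
  · apply inj
    rw [← hφ x y, ← hφ y x]
    have h1 : (x : CohRing n) * (y : CohRing n) = (y : CohRing n) * (x : CohRing n) :=
      comm2 x.2 y.2
    rw [h1]
  · obtain ⟨y, hy, hxy⟩ := sq2' (x : CohRing n) x.2
    have h1 : y * ω ∈ Coh n n := mul4' h4 hy hω
    rw [← hT, AddSubgroup.mem_zmultiples_iff] at h1
    obtain ⟨m, hm⟩ := h1
    refine ⟨m, inj _ _ ?_⟩
    rw [← hφ x x, hxy, add_mul, ← hm, add_smul]
  · apply inj
    rw [← hφ (x + y) z, add_smul, ← hφ x z, ← hφ y z, AddSubgroup.coe_add, add_mul, add_mul]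

end Pool.Agent.Y641.UFT
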