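import Pool.Agent.Y924.UF.Stm
import Pool.Agent.Y972.EL.UNI

/-! # Project UF: the universal predicate on levels without codes for all functions
(adaptation of Y972/EL/PAIR and Y972/EL/UNI of helper972) -/

set_option autoImplicit false

namespace Pool.Agent.Y641.UF

open Pool.Agent.Y924.EL Pool.Agent.Y924.UF
open Pool.Agent.Y972.EL (fst_iff suc_iff fst_e suc_e enum_inj enum_D nxt_iff num_e tr_lt WS)

section

variable {K : Type} {M : Lev K} {N : ℕ} {e : ℕ → K} {z0 z1 : K}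

/-- pairs are pairs of numbers -/
def FW (M : Lev K) (N : ℕ) (e : ℕ → K) : Prop := ∀ a b c : K, PairR M a b c →
  ∃ i j : ℕ, Nat.pair i j < N ∧ a = e i ∧ b = e j ∧ c = e (Nat.pair i j)

/-- all pairs exist -/
def BW (M : Lev K) (N : ℕ) (e : ℕ → K) : Prop := ∀ i j : ℕ, Nat.pair i j < N →
  PairR M (e i) (e j) (e (Nat.pair i j))

theorem fw (hG : Func M) (he : Enum M N e) : FW M N e := by
  rintro a b c ⟨hc, s, r, h0, hs, ha, hb⟩
  obtain ⟨k, hk, rfl⟩ := (he.1 _).1 hc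
  have key : ∀ j, j < N → M.E s (e j) (e j.unpair.1) ∧ M.E r (e j) (e j.unpair.2) := by
    intro j
    induction j with
    | zero =>
      intro hj
      exact h0 (e 0) ((fst_iff he _).2 ⟨hj, rfl⟩)
    | succ j ih =>
      intro hj
      obtain ⟨ih1, ih2⟩ := ih (by omega)
      obtain ⟨x, y, x', y', h1, h2, h3, h4, h5⟩ :=
        hs (e j) (e (j + 1)) ((suc_iff he _ _).2 ⟨j, hj, rfl, rfl⟩)
      have hDj : M.D (e j) := enum_D he (by omega)
      have h6 := hG _ _ _ _ hDj h1 ih1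
      have h7 := hG _ _ _ _ hDj h2 ih2
      subst h6
      subst h7
      obtain ⟨h8, h9⟩ := (nxt_iff he hj x' y').1 h5
      rw [h8] at h3
      rw [h9] at h4
      exact ⟨h3, h4⟩
  obtain ⟨h1, h2⟩ := key k hk
  have h3 := hG _ _ _ _ hc ha h1
  have h4 := hG _ _ _ _ hc hb h2
  exact ⟨k.unpair.1, k.unpair.2, by rwa [Nat.pair_unpair], h3, h4, by rw [Nat.pair_unpair]⟩

theorem code (hC : Comp M) (he : Enum M N e) (f : ℕ → K) (hf : ∀ k, k < N → M.D (f k)) :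
    ∃ s, ∀ k, k < N → M.E s (e k) (f k) := by
  classical
  obtain ⟨s, hs⟩ := hC (fun x => if h : ∃ k, k < N ∧ x = e k then f (Classical.choose h) else x)
    (by
      intro i hi
      have h := (he.1 i).1 hi
      show M.D (if h : ∃ k, k < N ∧ i = e k then f (Classical.choose h) else i)
      rw [dif_pos h]
      exact hf _ (Classical.choose_spec h).1)
  refine ⟨s, fun k hk => ?_⟩
  have h1 := hs (e k) (enum_D he hk)
  have h : ∃ k', k' < N ∧ e k = e k' := ⟨k, hk, rfl⟩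
  have h2 := Classical.choose_spec h
  have h3 : k = Classical.choose h := enum_inj he hk h2.1 h2.2
  have h4 : (if h : ∃ k', k' < N ∧ e k = e k' then f (Classical.choose h) else e k) = f k := by
    rw [dif_pos h, ← h3]
  have h5 : M.E s (e k)
      (if h : ∃ k', k' < N ∧ e k = e k' then f (Classical.choose h) else e k) := h1
  rwa [h4] at h5

theorem bw (hC : Comp M) (he : Enum M N e) : BW M N e := by
  intro i j hij
  obtain ⟨s, hs⟩ := code hC he (fun k => e k.unpair.1) (fun k hk =>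
    enum_D he (lt_of_le_of_lt (Nat.unpair_left_le _) hk))
  obtain ⟨r, hr⟩ := code hC he (fun k => e k.unpair.2) (fun k hk =>
    enum_D he (lt_of_le_of_lt (Nat.unpair_right_le _) hk))
  refine ⟨enum_D he hij, s, r, ?_, ?_, ?_, ?_⟩
  · intro x hx
    obtain ⟨h0, rfl⟩ := (fst_iff he _).1 hx
    exact ⟨hs 0 h0, hr 0 h0⟩
  · intro x y hxy
    obtain ⟨k, hk, rfl, rfl⟩ := (suc_iff he _ _).1 hxy
    exact ⟨_, _, _, _, hs k (by omega), hr k (by omega), hs (k + 1) hk, hr (k + 1) hk,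
      (nxt_iff he hk _ _).2 ⟨rfl, rfl⟩⟩
  · have := hs _ hij
    rwa [Nat.unpair_pair] at this
  · have := hr _ hij
    rwa [Nat.unpair_pair] at this

theorem pr (hF : FW M N e) (he : Enum M N e) {a b : K} {k : ℕ} (hk : k < N)
    (h : PairR M a b (e k)) :
    ∃ i j, a = e i ∧ b = e j ∧ k = Nat.pair i j ∧ i < N ∧ j < N := by
  obtain ⟨i, j, hij, rfl, rfl, h1⟩ := hF _ _ _ h
  have h2 := enum_inj he hk hij h1
  exact ⟨i, j, rfl, rfl, h2, lt_of_le_of_lt (Nat.left_le_pair i j) hij,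
    lt_of_le_of_lt (Nat.right_le_pair i j) hij⟩

theorem pr' (hF : FW M N e) (he : Enum M N e) {i j : ℕ} {c : K} (hi : i < N)
    (hj : j < N) (h : PairR M (e i) (e j) c) : Nat.pair i j < N ∧ c = e (Nat.pair i j) := by
  obtain ⟨i', j', hij, h1, h2, rfl⟩ := hF _ _ _ h
  have h3 := enum_inj he hi (lt_of_le_of_lt (Nat.left_le_pair i' j') hij) h1
  have h4 := enum_inj he hj (lt_of_le_of_lt (Nat.right_le_pair i' j') hij) h2
  subst h3
  subst h4
  exact ⟨hij, rfl⟩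

theorem mem_of (hF : FW M N e) (he : Enum M N e) {w c x y : K} (h : Mem M z1 w c x y) :
    ∃ c' x' y' : ℕ, c = e c' ∧ x = e x' ∧ y = e y' ∧ tr c' x' y' < N ∧
      M.E w (e (tr c' x' y')) z1 := by
  obtain ⟨q, t, h1, h2, h3⟩ := h
  obtain ⟨i, j, hij, rfl, rfl, rfl⟩ := hF _ _ _ h1
  obtain ⟨i', j', hij', rfl, h4, rfl⟩ := hF _ _ _ h2
  have h5 := enum_inj he hij (lt_of_le_of_lt (Nat.right_le_pair i' j') hij') h4
  subst h5
  exact ⟨i', i, j, rfl, rfl, rfl, hij', h3⟩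

theorem mem1 (hF : FW M N e) (he : Enum M N e) {w : K} {c x y : ℕ} (hc : c < N)
    (hx : x < N) (hy : y < N) (h : Mem M z1 w (e c) (e x) (e y)) :
    tr c x y ∈ WS M N e z1 w := by
  obtain ⟨c', x', y', h1, h2, h3, h4, h5⟩ := mem_of hF he h
  obtain ⟨h6, h7, h8⟩ := tr_lt h4
  have h9 := enum_inj he hc h6 h1
  have h10 := enum_inj he hx h7 h2
  have h11 := enum_inj he hy h8 h3
  subst h9 h10 h11
  exact ⟨h4, h5⟩

theorem mem2 (hB : BW M N e) {w : K} {c x y : ℕ} (h : tr c x y ∈ WS M N e z1 w) :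
    Mem M z1 w (e c) (e x) (e y) :=
  ⟨e (Nat.pair x y), e (tr c x y), hB _ _ (lt_of_le_of_lt (Nat.right_le_pair _ _) h.1),
    hB _ _ h.1, h.2⟩

/-- all the elements in a membership statement are numbers -/
theorem mem_num (hF : FW M N e) (he : Enum M N e) {w c x y : K}
    (h : Mem M z1 w c x y) : (∃ k, k < N ∧ c = e k) ∧ (∃ k, k < N ∧ x = e k) ∧
      (∃ k, k < N ∧ y = e k) := by
  obtain ⟨c', x', y', h1, h2, h3, h4, h5⟩ := mem_of hF he h
  obtain ⟨h6, h7, h8⟩ := tr_lt h4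
  exact ⟨⟨c', h6, h1⟩, ⟨x', h7, h2⟩, ⟨y', h8, h3⟩⟩

theorem just_of (hF : FW M N e) (he : Enum M N e) {w : K} {n : ℕ} (hn : n < N)
    (h : JustR M z1 w (e n)) : Just (WS M N e z1 w) n := by
  obtain ⟨c, q, x, y, g, c', c1, c2, h1, h2, h3, h4, h5⟩ := h
  obtain ⟨c, q, rfl, rfl, rfl, hc, hq⟩ := pr hF he hn h1
  obtain ⟨x, y, rfl, rfl, rfl, hx, hy⟩ := pr hF he hq h2
  obtain ⟨g, c', rfl, rfl, rfl, hg, hc'⟩ := pr hF he hc h3
  obtain ⟨c1, c2, rfl, rfl, rfl, hc1, hc2⟩ := pr hF he hc' h4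
  refine ⟨_, x, y, g, c1, c2, rfl, rfl, ?_⟩
  rcases h5 with ⟨h6, h7⟩ | ⟨h6, h7⟩ | ⟨h6, v, h7⟩ | ⟨h6, v, h7⟩ | ⟨h6, a, b, h7, h8, h9⟩ |
    ⟨h6, a, h7, h8⟩ | ⟨h6, z, k, h7, h8⟩
  · exact Or.inl ⟨(num_e he hg).1 h6, (fst_e he hy).1 h7⟩
  · exact Or.inr (Or.inl ⟨(num_e he hg).1 h6, (suc_e he hx hy).1 h7⟩)
  · obtain ⟨i, j, h8, rfl, rfl, hi, hj⟩ := pr hF he hx h7
    have h9 := enum_inj he hy hi h8
    subst h9
    exact Or.inr (Or.inr (Or.inl ⟨(num_e he hg).1 h6, j, rfl⟩))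
  · obtain ⟨i, j, rfl, h8, rfl, hi, hj⟩ := pr hF he hx h7
    have h9 := enum_inj he hy hj h8
    subst h9
    exact Or.inr (Or.inr (Or.inr (Or.inl ⟨(num_e he hg).1 h6, i, rfl⟩)))
  · obtain ⟨a, b, rfl, rfl, rfl, ha, hb⟩ := pr hF he hy h9
    exact Or.inr (Or.inr (Or.inr (Or.inr (Or.inl ⟨(num_e he hg).1 h6, a, b,
      mem1 hF he hc1 hx ha h7, mem1 hF he hc2 hx hb h8, rfl⟩))))
  · obtain ⟨-, -, a, ha, rfl⟩ := mem_num hF he h7
    exact Or.inr (Or.inr (Or.inr (Or.inr (Or.inr (Or.inl ⟨(num_e he hg).1 h6, a,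
      mem1 hF he hc2 hx ha h7, mem1 hF he hc1 ha hy h8⟩)))))
  · obtain ⟨z, k, rfl, rfl, rfl, hz, hk⟩ := pr hF he hx h7
    refine Or.inr (Or.inr (Or.inr (Or.inr (Or.inr (Or.inr ⟨(num_e he hg).1 h6, z, k, rfl, ?_⟩)))))
    rcases h8 with ⟨h8, h9⟩ | ⟨j, i, xk, q2, x2, h8, h9, h10, h11, h12, h13⟩
    · exact Or.inl ⟨(fst_e he hk).1 h8, mem1 hF he hc1 hz hy h9⟩
    · right
      obtain ⟨j, hj, rfl, h14⟩ := (suc_iff he _ _).1 h8
      have h15 := enum_inj he hk hj h14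
      have hj' : j < N := by omega
      obtain ⟨h16, rfl⟩ := pr' hF he hz hj' h9
      obtain ⟨-, -, i, hi, rfl⟩ := mem_num hF he h10
      obtain ⟨h17, rfl⟩ := pr' hF he hj' hi h11
      obtain ⟨h18, rfl⟩ := pr' hF he hz h17 h12
      exact ⟨j, i, h15, mem1 hF he hc h16 hi h10, mem1 hF he hc2 h18 hy h13⟩

theorem of_just (hB : BW M N e) (he : Enum M N e) {w : K} {n : ℕ} (hn : n < N)
    (h : Just (WS M N e z1 w) n) : JustR M z1 w (e n) := by
  obtain ⟨c, x, y, g, c1, c2, rfl, rfl, h⟩ := h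
  have hxy : Nat.pair x y < N := lt_of_le_of_lt (Nat.right_le_pair _ _) hn
  have hc : Nat.pair g (Nat.pair c1 c2) < N := lt_of_le_of_lt (Nat.left_le_pair _ _) hn
  have hx : x < N := lt_of_le_of_lt (Nat.left_le_pair _ _) hxy
  have hy : y < N := lt_of_le_of_lt (Nat.right_le_pair _ _) hxy
  have hg : g < N := lt_of_le_of_lt (Nat.left_le_pair _ _) hc
  have hc' : Nat.pair c1 c2 < N := lt_of_le_of_lt (Nat.right_le_pair _ _) hc
  refine ⟨e (Nat.pair g (Nat.pair c1 c2)), e (Nat.pair x y), e x, e y, e g, e (Nat.pair c1 c2),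
    e c1, e c2, hB _ _ hn, hB _ _ hxy, hB _ _ hc, hB _ _ hc', ?_⟩
  rcases h with ⟨h6, h7⟩ | ⟨h6, h7⟩ | ⟨h6, v, h7⟩ | ⟨h6, v, h7⟩ | ⟨h6, a, b, h7, h8, h9⟩ |
    ⟨h6, a, h7, h8⟩ | ⟨h6, z, k, h7, h8⟩
  · exact Or.inl ⟨(num_e he hg).2 h6, (fst_e he hy).2 h7⟩
  · exact Or.inr (Or.inl ⟨(num_e he hg).2 h6, (suc_e he hx hy).2 h7⟩)
  · subst h7
    exact Or.inr (Or.inr (Or.inl ⟨(num_e he hg).2 h6, e v, hB _ _ hx⟩))
  · subst h7
    exact Or.inr (Or.inr (Or.inr (Or.inl ⟨(num_e he hg).2 h6, e v, hB _ _ hx⟩)))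
  · subst h9
    exact Or.inr (Or.inr (Or.inr (Or.inr (Or.inl ⟨(num_e he hg).2 h6, e a, e b,
      mem2 hB h7, mem2 hB h8, hB _ _ hy⟩))))
  · exact Or.inr (Or.inr (Or.inr (Or.inr (Or.inr (Or.inl ⟨(num_e he hg).2 h6, e a,
      mem2 hB h7, mem2 hB h8⟩)))))
  · subst h7
    have hz : z < N := lt_of_le_of_lt (Nat.left_le_pair _ _) hx
    have hk : k < N := lt_of_le_of_lt (Nat.right_le_pair _ _) hx
    refine Or.inr (Or.inr (Or.inr (Or.inr (Or.inr (Or.inr ⟨(num_e he hg).2 h6, e z, e k,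
      hB _ _ hx, ?_⟩)))))
    rcases h8 with ⟨h8, h9⟩ | ⟨j, i, h8, h9, h10⟩
    · exact Or.inl ⟨(fst_e he hk).2 h8, mem2 hB h9⟩
    · right
      have hi := (tr_lt h9.1).2.2
      have hzj := (tr_lt h9.1).2.1
      have hj : j < N := lt_of_le_of_lt (Nat.right_le_pair _ _) hzj
      have hq := (tr_lt h10.1).2.1
      have hji : Nat.pair j i < N := lt_of_le_of_lt (Nat.right_le_pair _ _) hq
      exact ⟨e j, e i, e (Nat.pair z j), e (Nat.pair j i), e (Nat.pair z (Nat.pair j i)),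
        (suc_e he hj hk).2 h8, hB _ _ hzj, mem2 hB h9, hB _ _ hji, hB _ _ hq, mem2 hB h10⟩

end

/-- UF-UNI, first part -/
theorem t_UNI1 : Pool.Agent.Y924.UF.S_UNI1 := by
  intro K M N e z1 hG he
  have hF := fw hG he
  refine ⟨hF, fun c x y hc hx hy h => ?_⟩
  obtain ⟨w, h1, h2⟩ := h
  exact ⟨WS M N e z1 w, fun t ht => just_of hF he ht.1 (h1 (e t) (enum_D he ht.1) ht.2),
    mem1 hF he hc hx hy h2, fun t ht => ht.1⟩

/-- UF-UNI, second part -/
theorem t_UNI2 : Pool.Agent.Y924.UF.S_UNI2 := by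
  classical
  intro K M N e z0 z1 hG hC he hz0 hz1 hz
  have hB := bw hC he
  refine ⟨hB, fun c x y hc hx hy h => ?_⟩
  obtain ⟨W, h1, h2, h3⟩ := h
  obtain ⟨w, hw⟩ := code hC he (fun t => if t ∈ W then z1 else z0) (fun k _ => by
    show M.D (if k ∈ W then z1 else z0)
    split_ifs
    · exact hz1
    · exact hz0)
  have hW : WS M N e z1 w = W := by
    ext t
    constructor
    · rintro ⟨h4, h5⟩
      by_contra h6
      have h7 := hw t h4
      rw [if_neg h6] at h7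
      exact hz (hG _ _ _ _ (enum_D he h4) h7 h5)
    · intro h4
      have h5 := hw t (h3 t h4)
      rw [if_pos h4] at h5
      exact ⟨h3 t h4, h5⟩
  refine ⟨w, ?_, ?_⟩
  · intro t ht h4
    obtain ⟨k, hk, rfl⟩ := (he.1 _).1 ht
    apply of_just hB he hk
    rw [hW]
    apply h1
    rw [← hW]
    exact ⟨hk, h4⟩
  · apply mem2 hB
    rw [hW]
    exact h2

end Pool.Agent.Y641.UF
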